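import Mathlib

/-!
The Suzuki groups `Sz(q)`, `q = 2^(2m+1) ≥ 8`, in their natural action on the `q²+1` points of the
Suzuki–Tits ovoid, have the 3-universal transversal property.
-/

namespace Pool.Agent.Results.MP_c2cbdb_al.SuzukiThreeUT

open scoped LinearAlgebra.Projectivization
open Finset

/-! ### Definitions -/

/-- The Tits endomorphism `x ↦ x^(2^(m+1))` of a field with `2^(2m+1)` elements. -/
def tits (m : ℕ) {F : Type} [Field F] (x : F) : F := x ^ 2 ^ (m + 1)

/-- The Suzuki–Tits ovoid in `PG(3,q)`: the point `[1,0,0,0]` and the points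
`[st + s^(σ+2) + t^σ, t, s, 1]`. -/
def ovoid (m : ℕ) (F : Type) [Field F] : Set (ℙ F (Fin 4 → F)) :=
  {p | ∃ (v : Fin 4 → F) (hv : v ≠ 0), p = Projectivization.mk F v hv ∧
    (v = ![1, 0, 0, 0] ∨
      ∃ s t : F, v = ![s * t + tits m s * s ^ 2 + tits m t, t, s, 1])}

/-- The standard generators of the Suzuki group: the unipotent maps, the diagonal maps and the
reversal of the coordinates. -/
def IsGen (m : ℕ) {F : Type} [Field F] (g : (Fin 4 → F) ≃ₗ[F] (Fin 4 → F)) : Prop :=
  (∃ a b : F, ∀ v, g v = ![v 0 + a * v 1 + (b + tits m a * a) * v 2 +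
      (a * b + tits m a * a ^ 2 + tits m b) * v 3, v 1 + tits m a * v 2 + b * v 3,
      v 2 + a * v 3, v 3]) ∨
  (∃ k : F, k ≠ 0 ∧ ∀ v, g v = ![tits m k * k ^ 2 * v 0, tits m k * k * v 1, k * v 2, v 3]) ∨
  (∀ v, g v = ![v 3, v 2, v 1, v 0])

/-- The Suzuki group as a permutation group on the points of the ovoid: the group generated by
the permutations of the ovoid induced by the standard generators. -/
def suzuki (m : ℕ) (F : Type) [Field F] : Subgroup (Equiv.Perm (ovoid m F)) :=
  Subgroup.closure {π | ∃ g : (Fin 4 → F) ≃ₗ[F] (Fin 4 → F), IsGen m g ∧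
    ∀ p : ovoid m F, (π p : ℙ F (Fin 4 → F)) = g • (p : ℙ F (Fin 4 → F))}

/-- The `k`-universal transversal property of a permutation group `G` on `Ω`: for every
`k`-subset `S` and every partition of `Ω` into `k` nonempty parts (the fibres of a surjection
`P : Ω → Fin k`) some image of `S` under `G` meets every part. -/
def HasUT {Ω : Type} (G : Subgroup (Equiv.Perm Ω)) (k : ℕ) : Prop :=
  ∀ S : Finset Ω, S.card = k → ∀ P : Ω → Fin k, Function.Surjective P →
    ∃ g ∈ G, ∀ i, ∃ x ∈ S, P (g x) = i

/-! ### The Tits endomorphism -/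

section Field

variable {m : ℕ} {F : Type} [Field F]

theorem tits_mul (x y : F) : tits m (x * y) = tits m x * tits m y := by
  simp [tits, mul_pow]

theorem tits_zero : tits m (0 : F) = 0 := by simp [tits]

theorem tits_one : tits m (1 : F) = 1 := by simp [tits]

theorem tits_ne {x : F} (h : x ≠ 0) : tits m x ≠ 0 := pow_ne_zero _ h

theorem tits_inv (x : F) : tits m x⁻¹ = (tits m x)⁻¹ := by simp [tits]

theorem tits_add [CharP F 2] (x y : F) : tits m (x + y) = tits m x + tits m y := by
  have : Fact (Nat.Prime 2) := ⟨Nat.prime_two⟩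
  simpa [tits] using add_pow_char_pow (p := 2) (n := m + 1) x y

theorem add_self [CharP F 2] (x : F) : x + x = 0 := CharTwo.add_self_eq_zero x

variable [Fintype F]

theorem tits_tits (hF : Fintype.card F = 2 ^ (2 * m + 1)) (x : F) :
    tits m (tits m x) = x ^ 2 := by
  have h : x ^ Fintype.card F = x := FiniteField.pow_card x
  unfold tits
  rw [← pow_mul, ← pow_add]
  have : 2 ^ (m + 1 + (m + 1)) = Fintype.card F * 2 := by rw [hF]; ring
  rw [this, pow_mul, h]

/-- The inverse of the Tits endomorphism. -/
def tau (m : ℕ) {F : Type} [Field F] (x : F) : F := x ^ 2 ^ m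

omit [Fintype F] in
theorem tau_mul (x y : F) : tau m (x * y) = tau m x * tau m y := by
  simp [tau, mul_pow]

theorem tits_tau (hF : Fintype.card F = 2 ^ (2 * m + 1)) (x : F) : tits m (tau m x) = x := by
  have h : x ^ Fintype.card F = x := FiniteField.pow_card x
  unfold tits tau
  rw [← pow_mul, ← pow_add]
  have : 2 ^ (m + (m + 1)) = Fintype.card F := by rw [hF]; ring
  rw [this, h]

theorem tau_tits (hF : Fintype.card F = 2 ^ (2 * m + 1)) (x : F) : tau m (tits m x) = x := by
  have h : x ^ Fintype.card F = x := FiniteField.pow_card x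
  unfold tits tau
  rw [← pow_mul, ← pow_add]
  have : 2 ^ (m + 1 + m) = Fintype.card F := by rw [hF]; ring
  rw [this, h]

theorem charP_two (hF : Fintype.card F = 2 ^ (2 * m + 1)) : CharP F 2 := by
  have : Fact (Nat.Prime 2) := ⟨Nat.prime_two⟩
  exact charP_of_card_eq_prime_pow (f := 2 * m + 1) (by simpa using hF)

end Field

/-! ### The quadratic character of the additive group -/

section Chi

variable {m : ℕ} {F : Type} [Field F] [Fintype F] [DecidableEq F]

/-- The data used: an additive map `χ : F → {±1}`. -/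
structure Char2 (F : Type) [Field F] where
  chi : F → ℝ
  map_add : ∀ x y, chi (x + y) = chi x * chi y
  map_zero : chi 0 = 1
  sq : ∀ x, chi x * chi x = 1
  frob : ∀ x, chi (x ^ 2) = chi x
  nondeg : ∀ w, w ≠ 0 → ∃ a, chi (w * a) = -1

theorem zmod2 : ∀ z : ZMod 2, z = 0 ∨ z = 1 := by decide

theorem zmod2_add : (1 : ZMod 2) + 1 = 0 := by decide

theorem zmod2_ne : (1 : ZMod 2) ≠ 0 := by decide

omit [DecidableEq F] in
theorem exists_char2 (hF : Fintype.card F = 2 ^ (2 * m + 1)) : Nonempty (Char2 F) := by
  classical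
  have : Fact (Nat.Prime 2) := ⟨Nat.prime_two⟩
  have := charP_two hF
  let _ : Algebra (ZMod 2) F := ZMod.algebra F 2
  let tr : F → ZMod 2 := fun x => Algebra.trace (ZMod 2) F x
  have tadd : ∀ x y, tr (x + y) = tr x + tr y := fun x y => map_add _ x y
  have tzero : tr 0 = 0 := map_zero _
  have hn : 2 ^ Module.finrank (ZMod 2) F = Fintype.card F := by
    have := Module.card_eq_pow_finrank (K := ZMod 2) (V := F)
    simpa using this.symm
  have tfrob : ∀ x, tr (x ^ 2) = tr x := by
    intro x
    have h1 := FiniteField.algebraMap_trace_eq_sum_pow (ZMod 2) F x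
    have h2 := FiniteField.algebraMap_trace_eq_sum_pow (ZMod 2) F (x ^ 2)
    apply (algebraMap (ZMod 2) F).injective
    change algebraMap (ZMod 2) F (Algebra.trace (ZMod 2) F (x ^ 2)) =
      algebraMap (ZMod 2) F (Algebra.trace (ZMod 2) F x)
    rw [h1, h2]
    have h3 : ∀ i, (x ^ 2) ^ (Nat.card (ZMod 2) ^ i) = x ^ (Nat.card (ZMod 2) ^ (i + 1)) := by
      intro i
      rw [← pow_mul]
      simp [pow_succ, mul_comm]
    simp_rw [h3]
    have h4 := Finset.sum_range_succ' (fun i => x ^ (Nat.card (ZMod 2) ^ i))
      (Module.finrank (ZMod 2) F)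
    have h5 := Finset.sum_range_succ (fun i => x ^ (Nat.card (ZMod 2) ^ i))
      (Module.finrank (ZMod 2) F)
    have h6 : x ^ (Nat.card (ZMod 2) ^ Module.finrank (ZMod 2) F) = x := by
      have : Nat.card (ZMod 2) = 2 := by simp
      rw [this, hn]
      exact FiniteField.pow_card x
    rw [h5, h6] at h4
    simpa using h4.symm
  have tnd : ∀ w, w ≠ 0 → ∃ a, tr (w * a) = 1 := by
    intro w hw
    by_contra h
    push Not at h
    apply hw
    have htr := (traceForm_nondegenerate (ZMod 2) F).1 w
    simp_rw [Algebra.traceForm_apply] at htr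
    apply htr
    intro a
    rcases zmod2 (tr (w * a)) with h1 | h1
    · exact h1
    · exact absurd h1 (h a)
  refine ⟨⟨fun x => if tr x = 0 then 1 else -1, ?_, ?_, ?_, ?_, ?_⟩⟩
  · intro x y
    rw [tadd]
    rcases zmod2 (tr x) with h1 | h1 <;> rcases zmod2 (tr y) with h2 | h2 <;>
      simp [h1, h2, zmod2_add]
  · simp [tzero]
  · intro x
    split_ifs <;> norm_num
  · intro x
    simp only [tfrob]
  · intro w hw
    obtain ⟨a, ha⟩ := tnd w hw
    exact ⟨a, by simp [ha]⟩

variable (X : Char2 F)

namespace Char2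

omit [Fintype F] [DecidableEq F] in
theorem chi_pm (x : F) : X.chi x = 1 ∨ X.chi x = -1 := by
  have := X.sq x
  have h : (X.chi x - 1) * (X.chi x + 1) = 0 := by linarith
  rcases mul_eq_zero.1 h with h | h
  · left; linarith
  · right; linarith

omit [Fintype F] [DecidableEq F] in
theorem abs_chi (x : F) : |X.chi x| = 1 := by
  rcases X.chi_pm x with h | h <;> simp [h]

omit [Fintype F] [DecidableEq F] in
theorem chi_tau (x : F) : X.chi (tau m x) = X.chi x := by
  unfold tau
  induction m with
  | zero => simp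
  | succ n ih =>
    rw [pow_succ, pow_mul, X.frob, ih]

theorem sum_mul (w : F) : ∑ a, X.chi (w * a) = if w = 0 then (Fintype.card F : ℝ) else 0 := by
  split_ifs with h
  · subst h
    simp [X.map_zero]
  · obtain ⟨a0, h0⟩ := X.nondeg w h
    have h1 : ∑ a, X.chi (w * (a + a0)) = ∑ a, X.chi (w * a) :=
      Fintype.sum_equiv (Equiv.addRight a0) _ _ (fun a => rfl)
    have h2 : ∑ a, X.chi (w * (a + a0)) = - ∑ a, X.chi (w * a) := by
      rw [← Finset.sum_neg_distrib]
      apply Finset.sum_congr rfl
      intro a _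
      rw [mul_add, X.map_add, h0]
      ring
    linarith

theorem sum_mul' (w : F) : ∑ a, X.chi (a * w) = if w = 0 then (Fintype.card F : ℝ) else 0 := by
  rw [← X.sum_mul w]
  exact Finset.sum_congr rfl fun a _ => by rw [mul_comm]

/-- The Fourier transform. -/
noncomputable def hat (f : F → ℝ) (w : F) : ℝ := ∑ z, X.chi (w * z) * f z

omit [DecidableEq F] in
theorem hat_zero (f : F → ℝ) : X.hat f 0 = ∑ z, f z := by
  simp [hat, X.map_zero]

/-- The convolution formula. -/
theorem conv [CharP F 2] (f g : F → ℝ) (e : F) :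
    ∑ w, X.hat f w * X.hat g w * X.chi (w * e) = Fintype.card F * ∑ b, f b * g (b + e) := by
  have h1 : ∀ w, X.hat f w * X.hat g w * X.chi (w * e) =
      ∑ b, ∑ b', f b * g b' * X.chi (w * (b + b' + e)) := by
    intro w
    unfold hat
    rw [Finset.sum_mul_sum, Finset.sum_mul]
    apply Finset.sum_congr rfl
    intro b _
    rw [Finset.sum_mul]
    apply Finset.sum_congr rfl
    intro b' _
    rw [mul_add, mul_add, X.map_add, X.map_add]
    ring
  simp_rw [h1]
  rw [Finset.sum_comm]
  rw [Finset.mul_sum]
  apply Finset.sum_congr rfl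
  intro b _
  rw [Finset.sum_comm]
  have h2 : ∀ b', ∑ w, f b * g b' * X.chi (w * (b + b' + e)) =
      if b' = b + e then Fintype.card F * (f b * g (b + e)) else 0 := by
    intro b'
    rw [← Finset.mul_sum, X.sum_mul']
    have h3 : b + b' + e = 0 ↔ b' = b + e := by
      constructor
      · intro h
        have : b' = b + e + (b + b' + e) := by
          have h1 := add_self b
          have h2 := add_self e
          linear_combination (-1 : F) * h1 - h2
        rw [this, h, add_zero]
      · rintro rfl
        have h1 := add_self b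
        have h2 := add_self e
        linear_combination h1 + h2
    by_cases h : b' = b + e
    · rw [if_pos (h3.2 h), if_pos h, h]; ring
    · rw [if_neg (fun h' => h (h3.1 h')), if_neg h]; ring
  simp_rw [h2]
  simp

/-- Parseval. -/
theorem parseval [CharP F 2] (f : F → ℝ) :
    ∑ w, X.hat f w ^ 2 = Fintype.card F * ∑ b, f b ^ 2 := by
  have := X.conv f f 0
  simp only [mul_zero, X.map_zero, mul_one, add_zero] at this
  simpa [pow_two] using this

end Char2

/-- The arcs of the Cayley graph: `(a, b) → (u, b + phi a u)`. -/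
def phi (m : ℕ) {F : Type} [Field F] (c a u : F) : F :=
  c * (tits m (u + a) * (u + a)) + tits m a * (u + a)

omit [Fintype F] [DecidableEq F] in
theorem phi_add [CharP F 2] (c a u v : F) :
    phi m c a u + phi m c a v = c * (tits m u * u + tits m v * v) +
      (c * tits m (u + v) * a + (c + 1) * (u + v) * tits m a) := by
  unfold phi
  simp only [tits_add]
  have h1 := add_self (c * tits m a * a)
  have h2 := add_self (tits m a * a)
  linear_combination h1 + h2

/-- The character sum over `a`. -/
noncomputable def Esum (m : ℕ) (X : Char2 F) (c w d : F) : ℝ :=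
  ∑ a, X.chi (w * (c * tits m d * a + (c + 1) * d * tits m a))

theorem Esum_eq (hF : Fintype.card F = 2 ^ (2 * m + 1)) (c w d : F) :
    Esum m X c w d = if w * c * tits m d + tau m (w * (c + 1) * d) = 0
      then (Fintype.card F : ℝ) else 0 := by
  have := charP_two hF
  rw [← X.sum_mul]
  unfold Esum
  apply Finset.sum_congr rfl
  intro a _
  have h1 : w * (c * tits m d * a + (c + 1) * d * tits m a) =
      w * c * tits m d * a + w * (c + 1) * d * tits m a := by ring
  rw [h1, X.map_add, add_mul, X.map_add]
  congr 1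
  rw [← X.chi_tau (m := m) (w * (c + 1) * d * tits m a), tau_mul, tau_tits hF]

theorem Esum_nonneg (hF : Fintype.card F = 2 ^ (2 * m + 1)) (c w d : F) :
    0 ≤ Esum m X c w d := by
  rw [Esum_eq X hF]
  split_ifs <;> simp

theorem sum_Esum_le (hF : Fintype.card F = 2 ^ (2 * m + 1)) (c w : F) (hw : w ≠ 0) :
    ∑ d, Esum m X c w d ≤ 2 * Fintype.card F := by
  have := charP_two hF
  simp_rw [Esum_eq X hF]
  rw [← Finset.sum_filter, Finset.sum_const, nsmul_eq_mul]
  have hsub : (univ.filter fun d : F => w * c * tits m d + tau m (w * (c + 1) * d) = 0) ⊆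
      {0, w * (c + 1) / (tits m w * tits m c)} := by
    intro d hd
    simp only [mem_filter, mem_univ, true_and] at hd
    have h1 : tits m (w * c * tits m d + tau m (w * (c + 1) * d)) = 0 := by
      rw [hd, tits_zero]
    rw [tits_add, tits_tau hF, tits_mul, tits_tits hF, tits_mul] at h1
    simp only [mem_insert, mem_singleton]
    by_cases hd0 : d = 0
    · left; exact hd0
    right
    have h2 : tits m w * tits m c * d + w * (c + 1) = 0 := by
      have : d * (tits m w * tits m c * d + w * (c + 1)) = 0 := by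
        rw [← h1]; ring
      rcases mul_eq_zero.1 this with h | h
      · exact absurd h hd0
      · exact h
    have hc : c ≠ 0 := by
      rintro rfl
      rw [tits_zero] at h2
      apply hw
      simpa using h2
    have hne : tits m w * tits m c ≠ 0 := mul_ne_zero (tits_ne hw) (tits_ne hc)
    rw [eq_div_iff hne]
    have h3 := add_self (w * (c + 1))
    linear_combination h2 - h3
  have hcard := (Finset.card_le_card hsub).trans Finset.card_le_two
  have : ((univ.filter fun d : F => w * c * tits m d + tau m (w * (c + 1) * d) = 0).card : ℝ)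
      ≤ 2 := by exact_mod_cast hcard
  have hq : (0 : ℝ) ≤ Fintype.card F := by positivity
  nlinarith

/-- The norm estimate for the operators attached to nontrivial central characters. -/
theorem norm_bound (hF : Fintype.card F = 2 ^ (2 * m + 1)) (c w : F) (hw : w ≠ 0)
    (G : F → ℝ) :
    ∑ a, (∑ u, G u * X.chi (w * phi m c a u)) ^ 2 ≤ 2 * Fintype.card F * ∑ u, G u ^ 2 := by
  have := charP_two hF
  have h1 : ∑ a, (∑ u, G u * X.chi (w * phi m c a u)) ^ 2 =
      ∑ u, ∑ v, G u * G v * X.chi (w * (c * (tits m u * u + tits m v * v))) *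
        Esum m X c w (u + v) := by
    have h2 : ∀ a, (∑ u, G u * X.chi (w * phi m c a u)) ^ 2 =
        ∑ u, ∑ v, G u * G v * X.chi (w * (c * (tits m u * u + tits m v * v))) *
          X.chi (w * (c * tits m (u + v) * a + (c + 1) * (u + v) * tits m a)) := by
      intro a
      rw [sq, Finset.sum_mul_sum]
      apply Finset.sum_congr rfl
      intro u _
      apply Finset.sum_congr rfl
      intro v _
      have h3 : X.chi (w * phi m c a u) * X.chi (w * phi m c a v) =
          X.chi (w * (c * (tits m u * u + tits m v * v))) *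
          X.chi (w * (c * tits m (u + v) * a + (c + 1) * (u + v) * tits m a)) := by
        rw [← X.map_add, ← X.map_add, ← mul_add, ← mul_add, phi_add]
      linear_combination (G u * G v) * h3
    simp_rw [h2]
    rw [Finset.sum_comm]
    apply Finset.sum_congr rfl
    intro u _
    rw [Finset.sum_comm]
    apply Finset.sum_congr rfl
    intro v _
    unfold Esum
    rw [Finset.mul_sum]
  rw [h1]
  have h3 : ∀ u v, G u * G v * X.chi (w * (c * (tits m u * u + tits m v * v))) *
        Esum m X c w (u + v) ≤ (G u ^ 2 + G v ^ 2) / 2 * Esum m X c w (u + v) := by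
    intro u v
    apply mul_le_mul_of_nonneg_right _ (Esum_nonneg X hF c w _)
    rcases X.chi_pm (w * (c * (tits m u * u + tits m v * v))) with h | h <;> rw [h]
    · nlinarith [sq_nonneg (G u - G v)]
    · nlinarith [sq_nonneg (G u + G v)]
  calc _ ≤ ∑ u, ∑ v, (G u ^ 2 + G v ^ 2) / 2 * Esum m X c w (u + v) :=
        Finset.sum_le_sum fun u _ => Finset.sum_le_sum fun v _ => h3 u v
    _ = ∑ u, G u ^ 2 * ∑ d, Esum m X c w d := by
        have h4 : ∀ u v : F, (G u ^ 2 + G v ^ 2) / 2 * Esum m X c w (u + v) =
            G u ^ 2 * Esum m X c w (u + v) / 2 + G v ^ 2 * Esum m X c w (u + v) / 2 := by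
          intro u v; ring
        simp_rw [h4, Finset.sum_add_distrib]
        have h5 : ∀ u : F, ∑ v, Esum m X c w (u + v) = ∑ d, Esum m X c w d := fun u =>
          Fintype.sum_equiv (Equiv.addLeft u) _ _ (fun a => rfl)
        have h6 : ∀ v : F, ∑ u, Esum m X c w (u + v) = ∑ d, Esum m X c w d := fun v =>
          Fintype.sum_equiv (Equiv.addRight v) _ _ (fun a => rfl)
        have h7 : ∑ u, ∑ v, G u ^ 2 * Esum m X c w (u + v) / 2 =
            (∑ u, G u ^ 2 * ∑ d, Esum m X c w d) / 2 := by
          rw [Finset.sum_div]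
          apply Finset.sum_congr rfl
          intro u _
          rw [← Finset.sum_div, ← Finset.mul_sum, h5]
        have h8 : ∑ u, ∑ v, G v ^ 2 * Esum m X c w (u + v) / 2 =
            (∑ u, G u ^ 2 * ∑ d, Esum m X c w d) / 2 := by
          rw [Finset.sum_comm, Finset.sum_div]
          apply Finset.sum_congr rfl
          intro u _
          rw [← Finset.sum_div, ← Finset.mul_sum, h6]
        rw [h7, h8]; ring
    _ ≤ ∑ u, G u ^ 2 * (2 * Fintype.card F) := by
        apply Finset.sum_le_sum
        intro u _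
        exact mul_le_mul_of_nonneg_left (sum_Esum_le X hF c w hw) (sq_nonneg _)
    _ = 2 * Fintype.card F * ∑ u, G u ^ 2 := by
        rw [← Finset.sum_mul]; ring


/-- Sets `B`, `C` without arcs from `B` to `C` are small. -/
theorem count_bound (hF : Fintype.card F = 2 ^ (2 * m + 1)) (c : F) (B C : Finset (F × F))
    (hno : ∀ a b u, (a, b) ∈ B → (u, b + phi m c a u) ∉ C)
    (hB : B.Nonempty) (hC : C.Nonempty) :
    (Fintype.card F : ℝ) * (B.card * C.card) ≤
      2 * (((Fintype.card F : ℝ) ^ 2 - B.card) * ((Fintype.card F : ℝ) ^ 2 - C.card)) := by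
  obtain ⟨X⟩ := exists_char2 hF
  have := charP_two hF
  set q : ℝ := (Fintype.card F : ℝ) with hq
  have hq0 : 0 < q := by rw [hq]; exact_mod_cast Fintype.card_pos
  let f : F → F → ℝ := fun a b => if (a, b) ∈ B then 1 else 0
  let g : F → F → ℝ := fun a b => if (a, b) ∈ C then 1 else 0
  have sumf : ∑ a, ∑ b, f a b = B.card := by
    rw [← Finset.sum_product']
    simp [f]
  have sumg : ∑ a, ∑ b, g a b = C.card := by
    rw [← Finset.sum_product']
    simp [g]
  have fsq : ∀ a b, f a b ^ 2 = f a b := by
    intro a b; simp only [f]; split_ifs <;> norm_num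
  have gsq : ∀ a b, g a b ^ 2 = g a b := by
    intro a b; simp only [g]; split_ifs <;> norm_num
  let H : F → F → ℝ := fun w a => ∑ u, X.hat (g u) w * X.chi (w * phi m c a u)
  have htot : ∑ w, ∑ a, X.hat (f a) w * H w a = 0 := by
    rw [Finset.sum_comm]
    apply Finset.sum_eq_zero
    intro a _
    have h1 : ∀ w, X.hat (f a) w * H w a =
        ∑ u, X.hat (f a) w * X.hat (g u) w * X.chi (w * phi m c a u) := by
      intro w
      simp only [H]
      rw [Finset.mul_sum]
      apply Finset.sum_congr rfl
      intro u _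
      ring
    simp_rw [h1]
    rw [Finset.sum_comm]
    apply Finset.sum_eq_zero
    intro u _
    rw [X.conv]
    have h2 : ∑ b, f a b * g u (b + phi m c a u) = 0 := by
      apply Finset.sum_eq_zero
      intro b _
      simp only [f, g]
      by_cases hb : (a, b) ∈ B
      · rw [if_neg (hno a b u hb)]; ring
      · rw [if_neg hb]; ring
    rw [h2, mul_zero]
  have hzero : ∑ a, X.hat (f a) 0 * H 0 a = B.card * C.card := by
    have h1 : ∀ a, H 0 a = C.card := by
      intro a
      simp only [H, zero_mul, X.map_zero, mul_one, X.hat_zero]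
      exact sumg
    simp_rw [h1]
    rw [← Finset.sum_mul]
    simp_rw [X.hat_zero]
    rw [sumf]
  have hsplit : ∑ w ∈ univ.erase (0 : F), ∑ a, X.hat (f a) w * H w a =
      - (B.card * C.card : ℝ) := by
    have := Finset.sum_erase_add (s := (univ : Finset F))
      (f := fun w => ∑ a, X.hat (f a) w * H w a) (a := 0) (mem_univ _)
    rw [htot, hzero] at this
    linarith
  have cs := Finset.sum_mul_sq_le_sq_mul_sq (univ.erase (0 : F) ×ˢ (univ : Finset F))
    (fun p => X.hat (f p.2) p.1) (fun p => H p.1 p.2)
  rw [Finset.sum_product, Finset.sum_product, Finset.sum_product, hsplit] at cs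
  have general : ∀ (h : F → F → ℝ) (N : ℝ), (∀ a b, h a b ^ 2 = h a b) →
      ∑ a, ∑ b, h a b = N →
      ∑ w ∈ univ.erase (0 : F), ∑ a, X.hat (h a) w ^ 2 ≤ q * N - N ^ 2 / q := by
    intro h N hsq hsum
    have h1 := Finset.sum_erase_add (s := (univ : Finset F))
      (f := fun w => ∑ a, X.hat (h a) w ^ 2) (a := 0) (mem_univ _)
    have h2 : ∑ w, ∑ a, X.hat (h a) w ^ 2 = q * N := by
      rw [Finset.sum_comm]
      simp_rw [X.parseval, hsq]
      rw [← Finset.mul_sum, hsum]
    have h3 : N ^ 2 / q ≤ ∑ a, X.hat (h a) 0 ^ 2 := by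
      simp_rw [X.hat_zero]
      have h4 := sq_sum_le_card_mul_sum_sq (s := (univ : Finset F)) (f := fun a => ∑ z, h a z)
      rw [hsum] at h4
      rw [div_le_iff₀ hq0]
      calc N ^ 2 ≤ _ := h4
        _ = _ := by rw [Finset.card_univ]; ring
    rw [h2] at h1
    linarith
  have hP := general f B.card fsq sumf
  have hQ := general g C.card gsq sumg
  have hH : ∑ w ∈ univ.erase (0 : F), ∑ a, H w a ^ 2 ≤
      2 * q * (q * C.card - (C.card : ℝ) ^ 2 / q) := by
    calc _ ≤ ∑ w ∈ univ.erase (0 : F), 2 * q * ∑ u, X.hat (g u) w ^ 2 := by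
          apply Finset.sum_le_sum
          intro w hw
          exact norm_bound X hF c w (Finset.ne_of_mem_erase hw) _
      _ = 2 * q * ∑ w ∈ univ.erase (0 : F), ∑ u, X.hat (g u) w ^ 2 := by
          rw [Finset.mul_sum]
      _ ≤ _ := by
          apply mul_le_mul_of_nonneg_left hQ
          positivity
  have hB1 : (1 : ℝ) ≤ B.card := by exact_mod_cast hB.card_pos
  have hC1 : (1 : ℝ) ≤ C.card := by exact_mod_cast hC.card_pos
  have hP0 : 0 ≤ ∑ w ∈ univ.erase (0 : F), ∑ a, X.hat (f a) w ^ 2 :=
    Finset.sum_nonneg fun _ _ => Finset.sum_nonneg fun _ _ => sq_nonneg _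
  have hH0 : 0 ≤ ∑ w ∈ univ.erase (0 : F), ∑ a, H w a ^ 2 :=
    Finset.sum_nonneg fun _ _ => Finset.sum_nonneg fun _ _ => sq_nonneg _
  have key : ((B.card : ℝ) * C.card) ^ 2 ≤
      (q * B.card - (B.card : ℝ) ^ 2 / q) * (2 * q * (q * C.card - (C.card : ℝ) ^ 2 / q)) := by
    calc ((B.card : ℝ) * C.card) ^ 2 = (-((B.card : ℝ) * C.card)) ^ 2 := by ring
      _ ≤ _ := cs
      _ ≤ _ := mul_le_mul hP hH hH0 (hP0.trans hP)
  have e1 : (q * B.card - (B.card : ℝ) ^ 2 / q) * (2 * q * (q * C.card - (C.card : ℝ) ^ 2 / q)) =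
      (B.card * C.card) * (2 * ((q ^ 2 - B.card) * (q ^ 2 - C.card))) / q := by
    field_simp
  rw [e1, le_div_iff₀ hq0] at key
  have hBC : 0 < (B.card : ℝ) * C.card := by positivity
  have : (B.card : ℝ) * C.card * (q * (B.card * C.card)) ≤
      (B.card : ℝ) * C.card * (2 * ((q ^ 2 - B.card) * (q ^ 2 - C.card))) := by
    calc _ = ((B.card : ℝ) * C.card) ^ 2 * q := by ring
      _ ≤ _ := key
  exact le_of_mul_le_mul_left this hBC

/-- The numerical contradiction. -/
theorem no_bad (hF : Fintype.card F = 2 ^ (2 * m + 1)) (hm : 1 ≤ m) (c : F)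
    (A B C : Finset (F × F)) (hpart : A.card + B.card + C.card = Fintype.card F ^ 2)
    (hAB : A.card + 1 ≤ B.card) (hAC : A.card + 1 ≤ C.card)
    (hno : ∀ a b u, (a, b) ∈ B → (u, b + phi m c a u) ∉ C) : False := by
  have hB : B.Nonempty := Finset.card_pos.1 (by omega)
  have hC : C.Nonempty := Finset.card_pos.1 (by omega)
  have h := count_bound hF c B C hno hB hC
  have hp : (A.card : ℝ) + B.card + C.card = (Fintype.card F : ℝ) ^ 2 := by exact_mod_cast hpart
  have h1 : (A.card : ℝ) + 1 ≤ B.card := by exact_mod_cast hAB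
  have h2 : (A.card : ℝ) + 1 ≤ C.card := by exact_mod_cast hAC
  have hA0 : (0 : ℝ) ≤ A.card := by positivity
  have hq8 : (8 : ℝ) ≤ Fintype.card F := by
    rw [hF]
    have : 2 ^ 3 ≤ 2 ^ (2 * m + 1) := Nat.pow_le_pow_right (by norm_num) (by omega)
    exact_mod_cast this
  rw [← hp] at h
  have e1 : (A.card : ℝ) + B.card + C.card - B.card = A.card + C.card := by ring
  have e2 : (A.card : ℝ) + B.card + C.card - C.card = A.card + B.card := by ring
  rw [e1, e2] at h
  set x : ℝ := (A.card : ℝ)
  set y : ℝ := (B.card : ℝ)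
  set z : ℝ := (C.card : ℝ)
  have hy : 0 < y := by linarith
  have hz : 0 < z := by linarith
  have h3 : 8 * (y * z) ≤ (Fintype.card F : ℝ) * (y * z) :=
    mul_le_mul_of_nonneg_right hq8 (by positivity)
  have h4 : (x + z) * (x + y) < (2 * z) * (2 * y) := by
    apply mul_lt_mul'' <;> linarith
  nlinarith

end Chi

/-! ### The permutation group in coordinates -/

section Coord

variable {m : ℕ} {F : Type} [Field F]

/-- The first coordinate of the points of the ovoid. -/
def ht (m : ℕ) {F : Type} [Field F] (s t : F) : F := s * t + tits m s * s ^ 2 + tits m t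

theorem ht_ne [CharP F 2] [Fintype F] (hF : Fintype.card F = 2 ^ (2 * m + 1)) {s t : F}
    (h : ¬ (s = 0 ∧ t = 0)) : ht m s t ≠ 0 := by
  intro h0
  unfold ht at h0
  have h2 : (2 : F) = 0 := CharTwo.two_eq_zero
  by_cases hs : s = 0
  · subst hs
    apply h
    refine ⟨rfl, ?_⟩
    by_contra ht
    have := tits_ne (m := m) ht
    apply this
    simpa using h0
  · set k := tits m s with hk
    have hk0 : k ≠ 0 := tits_ne hs
    obtain ⟨r, hr⟩ : ∃ r, t = k * s * r := ⟨t / (k * s), by field_simp⟩
    have hkk : tits m k = s ^ 2 := tits_tits hF s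
    have ht' : tits m t = s ^ 2 * k * tits m r := by
      rw [hr, tits_mul, tits_mul, hkk]
    have h3 : k * s ^ 2 * (r + 1 + tits m r) = 0 := by
      rw [← h0, ht', hr]; ring
    have h4 : r + 1 + tits m r = 0 := by
      rcases mul_eq_zero.1 h3 with h | h
      · exact absurd h (mul_ne_zero hk0 (pow_ne_zero _ hs))
      · exact h
    have h5 : tits m (r + 1 + tits m r) = 0 := by rw [h4, tits_zero]
    rw [tits_add, tits_add, tits_one, tits_tits hF] at h5
    have h6 : r * (r - 1) = 0 := by
      linear_combination h5 - h4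
    rcases mul_eq_zero.1 h6 with h | h
    · rw [h, tits_zero] at h4
      simp at h4
    · have : r = 1 := by linear_combination h
      rw [this, tits_one] at h4
      have : (1 : F) = 0 := by linear_combination h4 - h2
      exact one_ne_zero this

theorem ht_swap [CharP F 2] [Fintype F] (hF : Fintype.card F = 2 ^ (2 * m + 1)) {s t : F}
    (h : ht m s t ≠ 0) : ht m s t * ht m (t / ht m s t) (s / ht m s t) = 1 := by
  have h2 : (2 : F) = 0 := CharTwo.two_eq_zero
  have e1 : ∀ x y : F, tits m (x / y) = tits m x / tits m y := by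
    intro x y; simp [tits, div_pow]
  have hσ : tits m (ht m s t) ≠ 0 := tits_ne h
  have e2 : tits m (ht m s t) = tits m s * tits m t + s ^ 2 * tits m s ^ 2 + t ^ 2 := by
    unfold ht
    rw [tits_add, tits_add, tits_mul, tits_mul, tits_tits hF, tits_tits hF]
    congr 2
    have : tits m (s ^ 2) = tits m s ^ 2 := by rw [pow_two, tits_mul, pow_two]
    rw [this]
  have e3 : ht m (t / ht m s t) (s / ht m s t) = (t * s * tits m (ht m s t) +
      tits m t * t ^ 2 + tits m s * (ht m s t) ^ 2) /
        ((ht m s t) ^ 2 * tits m (ht m s t)) := by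
    conv_lhs => unfold ht
    rw [e1, e1]
    change t / ht m s t * (s / ht m s t) + tits m t / tits m (ht m s t) * (t / ht m s t) ^ 2 +
      tits m s / tits m (ht m s t) = _
    field_simp
  have e4 : t * s * tits m (ht m s t) + tits m t * t ^ 2 + tits m s * (ht m s t) ^ 2 =
      ht m s t * tits m (ht m s t) := by
    rw [e2]
    unfold ht
    generalize tits m s = x
    generalize tits m t = y
    linear_combination (x * (s ^ 3 * t * x + s * t * y)) * h2
  rw [e3, e4]
  field_simp


theorem ht_zero : ht m (0 : F) 0 = 0 := by simp [ht, tits_zero]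

variable [DecidableEq F]

/-- The map induced by the reversal of coordinates. -/
def wFun (m : ℕ) {F : Type} [Field F] [DecidableEq F] : Option (F × F) → Option (F × F)
  | none => some (0, 0)
  | some (s, t) => if s = 0 ∧ t = 0 then none else some (t / ht m s t, s / ht m s t)

theorem wFun_invol [CharP F 2] [Fintype F] (hF : Fintype.card F = 2 ^ (2 * m + 1)) :
    Function.Involutive (wFun m (F := F)) := by
  rintro (_ | ⟨s, t⟩)
  · simp [wFun]
  · by_cases h : s = 0 ∧ t = 0
    · obtain ⟨rfl, rfl⟩ := h
      simp [wFun]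
    · have hz := ht_ne hF h
      have hz' := ht_swap hF hz
      have hne : ¬ (t / ht m s t = 0 ∧ s / ht m s t = 0) := by
        rintro ⟨h1, h2⟩
        apply h
        rw [div_eq_zero_iff] at h1 h2
        exact ⟨h2.resolve_right hz, h1.resolve_right hz⟩
      have hz2 : ht m (t / ht m s t) (s / ht m s t) ≠ 0 := by
        intro h0; rw [h0, mul_zero] at hz'; exact zero_ne_one hz'
      simp only [wFun, if_neg h, if_neg hne]
      congr 2
      · rw [div_div, hz', div_one]
      · rw [div_div, hz', div_one]

/-- The permutation induced by the reversal of coordinates. -/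
def wPerm [CharP F 2] [Fintype F] (hF : Fintype.card F = 2 ^ (2 * m + 1)) :
    Equiv.Perm (Option (F × F)) := Function.Involutive.toPerm _ (wFun_invol hF)

/-- The translations. -/
def uPerm (m : ℕ) {F : Type} [Field F] [CharP F 2] (a b : F) :
    Equiv.Perm (Option (F × F)) := Equiv.optionCongr
  { toFun := fun p => (p.1 + a, p.2 + b + tits m a * p.1)
    invFun := fun p => (p.1 + a, p.2 + (b + tits m a * a) + tits m a * p.1)
    left_inv := by
      rintro ⟨s, t⟩
      have h2 : (2 : F) = 0 := CharTwo.two_eq_zero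
      ext
      · change s + a + a = s
        linear_combination a * h2
      · change t + b + tits m a * s + (b + tits m a * a) + tits m a * (s + a) = t
        linear_combination (b + tits m a * s + tits m a * a) * h2
    right_inv := by
      rintro ⟨s, t⟩
      have h2 : (2 : F) = 0 := CharTwo.two_eq_zero
      ext
      · change s + a + a = s
        linear_combination a * h2
      · change t + (b + tits m a * a) + tits m a * s + b + tits m a * (s + a) = t
        linear_combination (b + tits m a * s + tits m a * a) * h2 }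

/-- The diagonal maps. -/
def kPerm (m : ℕ) {F : Type} [Field F] (k : F) (hk : k ≠ 0) :
    Equiv.Perm (Option (F × F)) := Equiv.optionCongr
  { toFun := fun p => (k * p.1, tits m k * k * p.2)
    invFun := fun p => (k⁻¹ * p.1, (tits m k * k)⁻¹ * p.2)
    left_inv := by
      rintro ⟨s, t⟩
      have := tits_ne (m := m) hk
      ext <;> simp <;> field_simp
    right_inv := by
      rintro ⟨s, t⟩
      have := tits_ne (m := m) hk
      ext <;> simp <;> field_simp }

/-- The Suzuki group in coordinates. -/
def coordGroup [CharP F 2] [Fintype F] (hF : Fintype.card F = 2 ^ (2 * m + 1)) :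
    Subgroup (Equiv.Perm (Option (F × F))) :=
  Subgroup.closure {π | (∃ a b, π = uPerm m a b) ∨ (∃ k, ∃ hk : k ≠ 0, π = kPerm m k hk) ∨
    π = wPerm hF}

variable [CharP F 2] [Fintype F] (hF : Fintype.card F = 2 ^ (2 * m + 1))

theorem u_mem (a b : F) : uPerm m a b ∈ coordGroup hF :=
  Subgroup.subset_closure (Or.inl ⟨a, b, rfl⟩)

theorem k_mem (k : F) (hk : k ≠ 0) : kPerm m k hk ∈ coordGroup hF :=
  Subgroup.subset_closure (Or.inr (Or.inl ⟨k, hk, rfl⟩))

theorem w_mem : wPerm hF ∈ coordGroup hF :=
  Subgroup.subset_closure (Or.inr (Or.inr rfl))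

omit [DecidableEq F] [Fintype F] in
@[simp] theorem u_none (a b : F) : uPerm m a b none = none := rfl

omit [DecidableEq F] [Fintype F] in
@[simp] theorem u_some (a b s t : F) :
    uPerm m a b (some (s, t)) = some (s + a, t + b + tits m a * s) := rfl

omit [DecidableEq F] [Fintype F] [CharP F 2] in
@[simp] theorem k_none (k : F) (hk : k ≠ 0) : kPerm m k hk none = none := rfl

omit [DecidableEq F] [Fintype F] [CharP F 2] in
@[simp] theorem k_some (k : F) (hk : k ≠ 0) (s t : F) :
    kPerm m k hk (some (s, t)) = some (k * s, tits m k * k * t) := rfl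

theorem w_none : wPerm hF none = some (0, 0) := rfl

theorem w_zero : wPerm hF (some (0, 0)) = none := by
  change wFun m (some ((0 : F), 0)) = none
  simp [wFun]

theorem w_some {s t : F} (h : ¬ (s = 0 ∧ t = 0)) :
    wPerm hF (some (s, t)) = some (t / ht m s t, s / ht m s t) := by
  change wFun m (some (s, t)) = _
  simp only [wFun, if_neg h]

/-- Any point can be moved to `(0,0)`, fixing `none`. -/
theorem move_zero (p : F × F) : ∃ π ∈ coordGroup hF, π none = none ∧ π (some p) = some (0, 0) := by
  obtain ⟨s, t⟩ := p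
  refine ⟨uPerm m s (t + tits m s * s), u_mem hF _ _, rfl, ?_⟩
  rw [u_some]
  have h2 : (2 : F) = 0 := CharTwo.two_eq_zero
  congr 2
  · linear_combination s * h2
  · linear_combination (t + tits m s * s) * h2

theorem move_none (x : Option (F × F)) : ∃ π ∈ coordGroup hF, π x = none := by
  rcases x with _ | p
  · exact ⟨1, Subgroup.one_mem _, rfl⟩
  · obtain ⟨π, h1, _, h3⟩ := move_zero hF p
    refine ⟨wPerm hF * π, Subgroup.mul_mem _ (w_mem hF) h1, ?_⟩
    rw [Equiv.Perm.mul_apply, h3, w_zero]

/-- The normal form of a 3-subset. -/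
theorem normal_form (S : Finset (Option (F × F))) (hS : S.card = 3) :
    ∃ π ∈ coordGroup hF, ∃ c : F, ∀ y, y = none ∨ y = some (0, 0) ∨ y = some (1, c) →
      ∃ x ∈ S, π x = y := by
  obtain ⟨s1, s2, s3, h12, h13, h23, rfl⟩ := Finset.card_eq_three.1 hS
  obtain ⟨π1, m1, e1⟩ := move_none hF s1
  have hs2 : π1 s2 ≠ none := fun h => h12 (π1.injective (by rw [e1, h]))
  obtain ⟨p, hp⟩ := Option.ne_none_iff_exists'.1 hs2
  obtain ⟨π2, m2, e2, e3⟩ := move_zero hF p
  have f1 : (π2 * π1) s1 = none := by rw [Equiv.Perm.mul_apply, e1, e2]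
  have f2 : (π2 * π1) s2 = some (0, 0) := by rw [Equiv.Perm.mul_apply, hp, e3]
  have hs3 : (π2 * π1) s3 ≠ none := fun h => h13 ((π2 * π1).injective (by rw [f1, h]))
  have hs3' : (π2 * π1) s3 ≠ some (0, 0) := fun h => h23 ((π2 * π1).injective (by rw [f2, h]))
  obtain ⟨⟨x, y⟩, hxy⟩ := Option.ne_none_iff_exists'.1 hs3
  have m12 := Subgroup.mul_mem _ m2 m1
  -- reduce to nonzero first coordinate
  have main : ∀ (π : Equiv.Perm (Option (F × F))), π ∈ coordGroup hF → ∀ x y : F, x ≠ 0 →
      (({π s1, π s2} : Set (Option (F × F))) = {none, some (0, 0)}) → π s3 = some (x, y) →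
      ∃ π ∈ coordGroup hF, ∃ c : F, ∀ y, y = none ∨ y = some (0, 0) ∨ y = some (1, c) →
      ∃ x ∈ ({s1, s2, s3} : Finset (Option (F × F))), π x = y := by
    intro π hπ x y hx hset h3
    refine ⟨kPerm m x⁻¹ (inv_ne_zero hx) * π, Subgroup.mul_mem _ (k_mem hF _ _) hπ,
      tits m x⁻¹ * x⁻¹ * y, ?_⟩
    have hn : (none : Option (F × F)) ∈ ({π s1, π s2} : Set (Option (F × F))) := by
      rw [hset]; simp
    have hz : (some (0, 0) : Option (F × F)) ∈ ({π s1, π s2} : Set (Option (F × F))) := by
      rw [hset]; simp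
    rintro z (rfl | rfl | rfl)
    · rcases hn with h | h
      · exact ⟨s1, by simp, by rw [Equiv.Perm.mul_apply, ← h, k_none]⟩
      · exact ⟨s2, by simp, by
          rw [Equiv.Perm.mul_apply, ← Set.mem_singleton_iff.1 h, k_none]⟩
    · rcases hz with h | h
      · exact ⟨s1, by simp, by rw [Equiv.Perm.mul_apply, ← h, k_some]; simp⟩
      · exact ⟨s2, by simp, by
          rw [Equiv.Perm.mul_apply, ← Set.mem_singleton_iff.1 h, k_some]; simp⟩
    · refine ⟨s3, by simp, ?_⟩
      rw [Equiv.Perm.mul_apply, h3, k_some, inv_mul_cancel₀ hx]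
  by_cases hx : x = 0
  · subst hx
    have hy : y ≠ 0 := by
      rintro rfl
      exact hs3' hxy
    have hy' : tits m y ≠ 0 := tits_ne hy
    have hht : ht m 0 y = tits m y := by simp [ht, tits_zero]
    refine main (wPerm hF * (π2 * π1)) (Subgroup.mul_mem _ (w_mem hF) m12)
      (y / ht m 0 y) (0 / ht m 0 y) (by rw [hht]; exact div_ne_zero hy hy') ?_ ?_
    · have g1 : (wPerm hF * (π2 * π1)) s1 = some (0, 0) := by
        rw [Equiv.Perm.mul_apply, f1, w_none]
      have g2 : (wPerm hF * (π2 * π1)) s2 = none := by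
        rw [Equiv.Perm.mul_apply, f2, w_zero]
      rw [g1, g2, Set.pair_comm]
    · rw [Equiv.Perm.mul_apply, hxy, w_some hF (by simp [hy])]
  · exact main (π2 * π1) m12 x y hx (by rw [f1, f2]) hxy

theorem fin3_facts : ∀ i0 : Fin 3, i0 + 1 ≠ i0 ∧ i0 + 2 ≠ i0 ∧ i0 + 1 ≠ i0 + 2 ∧
    ∀ i : Fin 3, i = i0 ∨ i = i0 + 1 ∨ i = i0 + 2 := by decide

/-- The 3-universal transversal property in coordinates. -/
theorem coord_ut (hm : 1 ≤ m) : HasUT (coordGroup hF) 3 := by
  intro S hS P hP
  obtain ⟨π, hπ, c, hc⟩ := normal_form hF S hS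
  obtain ⟨i0, _, hi0⟩ := Finset.exists_min_image (univ : Finset (Fin 3))
    (fun i => (univ.filter fun x => P x = i).card) ⟨0, mem_univ _⟩
  obtain ⟨x0, hx0⟩ := hP i0
  obtain ⟨ρ, hρ, hρ0⟩ := move_none hF x0
  by_contra hcon
  push Not at hcon
  let P' : Option (F × F) → Fin 3 := fun x => P (ρ⁻¹ x)
  have hP'0 : P' none = i0 := by
    simp only [P']
    rw [← hρ0]
    simpa using hx0
  have hcard : ∀ i, (univ.filter fun x => P' x = i).card =
      (univ.filter fun x => P x = i).card := by
    intro i
    apply Finset.card_bij (fun x _ => ρ⁻¹ x)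
    · intro x hx
      simpa [P'] using hx
    · intro x _ y _ h
      exact ρ⁻¹.injective h
    · intro y hy
      refine ⟨ρ y, ?_, by simp⟩
      simpa [P'] using hy
  let cl : Fin 3 → Finset (F × F) := fun i => univ.filter fun p => P' (some p) = i
  have hcl : ∀ i, (univ.filter fun x => P' x = i).card =
      (cl i).card + if i = i0 then 1 else 0 := by
    intro i
    have h1 : (univ.filter fun x => P' x = i) =
        (cl i).map Function.Embedding.some ∪ (if i = i0 then {none} else ∅) := by
      ext x
      rcases x with _ | p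
      · by_cases h : i = i0
        · simp [h, hP'0]
        · simp [h, hP'0, Ne.symm h]
      · by_cases h : i = i0 <;> simp [cl, h]
    rw [h1, Finset.card_union_of_disjoint, Finset.card_map]
    · split_ifs <;> simp
    · rw [Finset.disjoint_left]
      intro x hx
      simp only [mem_map] at hx
      obtain ⟨p, _, rfl⟩ := hx
      split_ifs <;> simp
  obtain ⟨h10, h20, h12, hall⟩ := fin3_facts i0
  have hsz : ∀ i, i ≠ i0 → (cl i0).card + 1 ≤ (cl i).card := by
    intro i hi
    have h1 := hi0 i (mem_univ _)
    rw [← hcard, ← hcard, hcl, hcl, if_pos rfl, if_neg hi] at h1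
    simpa using h1
  have htotal : (cl i0).card + (cl (i0 + 1)).card + (cl (i0 + 2)).card = Fintype.card F ^ 2 := by
    have h1 : (univ : Finset (F × F)) = cl i0 ∪ cl (i0 + 1) ∪ cl (i0 + 2) := by
      ext p
      simp only [cl, mem_univ, mem_union, mem_filter, true_and, true_iff]
      rcases hall (P' (some p)) with h | h | h <;> simp [h]
    have h2 : (univ : Finset (F × F)).card = Fintype.card F ^ 2 := by
      rw [Finset.card_univ, Fintype.card_prod, pow_two]
    rw [← h2, h1, Finset.card_union_of_disjoint, Finset.card_union_of_disjoint]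
    · rw [Finset.disjoint_left]
      intro p hp hp'
      simp only [cl, mem_filter, mem_univ, true_and] at hp hp'
      exact h10 (hp'.symm.trans hp)
    · rw [Finset.disjoint_left]
      intro p hp hp'
      simp only [cl, mem_union, mem_filter, mem_univ, true_and] at hp hp'
      rcases hp with hp | hp
      · exact h20 (hp'.symm.trans hp)
      · exact h12 (hp.symm.trans hp')
  apply no_bad hF hm c (cl i0) (cl (i0 + 1)) (cl (i0 + 2)) htotal (hsz _ h10) (hsz _ h20)
  intro a b u hB hC
  simp only [cl, mem_filter, mem_univ, true_and] at hB hC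
  by_cases hk : u + a = 0
  · have h1 : phi m c a u = 0 := by simp [phi, hk]
    have h2 : u = a := by
      have h2 : (2 : F) = 0 := CharTwo.two_eq_zero
      linear_combination hk - a * h2
    rw [h1, add_zero, h2] at hC
    exact h12 (hB.symm.trans hC)
  · have hg : ρ⁻¹ * (uPerm m a b * (kPerm m (u + a) hk * π)) ∈ coordGroup hF :=
      Subgroup.mul_mem _ (Subgroup.inv_mem _ hρ) (Subgroup.mul_mem _ (u_mem hF _ _)
        (Subgroup.mul_mem _ (k_mem hF _ _) hπ))
    obtain ⟨i, hi⟩ := hcon _ hg
    have h2 : (2 : F) = 0 := CharTwo.two_eq_zero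
    have key : ∃ y, (y = none ∨ y = some (0, 0) ∨ y = some (1, c)) ∧
        P' (uPerm m a b (kPerm m (u + a) hk y)) = i := by
      rcases hall i with h | h | h
      · refine ⟨none, Or.inl rfl, ?_⟩
        rw [k_none, u_none, hP'0, h]
      · refine ⟨some (0, 0), Or.inr (Or.inl rfl), ?_⟩
        rw [k_some, u_some, h, ← hB]
        congr 3
        · ring
        · ring
      · refine ⟨some (1, c), Or.inr (Or.inr rfl), ?_⟩
        rw [k_some, u_some, h, ← hC]
        congr 3
        · linear_combination a * h2
        · unfold phi; ring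
    obtain ⟨y, hy, hy'⟩ := key
    obtain ⟨x, hxS, hxy⟩ := hc y hy
    apply hi x hxS
    rw [Equiv.Perm.mul_apply, Equiv.Perm.mul_apply, Equiv.Perm.mul_apply, hxy]
    exact hy'

end Coord

/-! ### Transfer to the ovoid -/

section Transfer

variable {m : ℕ} {F : Type} [Field F]

/-- A linear equivalence with a prescribed injective linear underlying map. -/
theorem exists_equiv (f : (Fin 4 → F) → (Fin 4 → F)) (hadd : ∀ v w, f (v + w) = f v + f w)
    (hsmul : ∀ (c : F) v, f (c • v) = c • f v) (hinj : Function.Injective f) :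
    ∃ g : (Fin 4 → F) ≃ₗ[F] (Fin 4 → F), ∀ v, g v = f v := by
  let l : (Fin 4 → F) →ₗ[F] (Fin 4 → F) := ⟨⟨f, hadd⟩, hsmul⟩
  exact ⟨LinearEquiv.ofInjectiveEndo l hinj, fun v => rfl⟩

theorem exists_u (a b : F) : ∃ g : (Fin 4 → F) ≃ₗ[F] (Fin 4 → F), ∀ v, g v =
    ![v 0 + a * v 1 + (b + tits m a * a) * v 2 +
      (a * b + tits m a * a ^ 2 + tits m b) * v 3, v 1 + tits m a * v 2 + b * v 3,
      v 2 + a * v 3, v 3] := by
  apply exists_equiv
  · intro v w
    ext i; fin_cases i <;> simp <;> ring
  · intro c v
    ext i; fin_cases i <;> simp <;> ring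
  · intro v w h
    have h0 := congrFun h 0
    have h1 := congrFun h 1
    have h2 := congrFun h 2
    have h3 := congrFun h 3
    simp at h0 h1 h2 h3
    rw [h3] at h2 h1 h0
    have h2' : v 2 = w 2 := by linear_combination h2
    rw [h2'] at h1 h0
    have h1' : v 1 = w 1 := by linear_combination h1
    rw [h1'] at h0
    have h0' : v 0 = w 0 := by linear_combination h0
    ext i; fin_cases i <;> assumption

theorem exists_k (k : F) (hk : k ≠ 0) : ∃ g : (Fin 4 → F) ≃ₗ[F] (Fin 4 → F), ∀ v, g v =
    ![tits m k * k ^ 2 * v 0, tits m k * k * v 1, k * v 2, v 3] := by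
  have hk' := tits_ne (m := m) hk
  apply exists_equiv
  · intro v w
    ext i; fin_cases i <;> simp <;> ring
  · intro c v
    ext i; fin_cases i <;> simp <;> ring
  · intro v w h
    have h0 := congrFun h 0
    have h1 := congrFun h 1
    have h2 := congrFun h 2
    have h3 := congrFun h 3
    simp [hk, hk'] at h0 h1 h2 h3
    ext i; fin_cases i <;> assumption

theorem exists_w : ∃ g : (Fin 4 → F) ≃ₗ[F] (Fin 4 → F), ∀ v, g v = ![v 3, v 2, v 1, v 0] := by
  apply exists_equiv
  · intro v w
    ext i; fin_cases i <;> simp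
  · intro c v
    ext i; fin_cases i <;> simp
  · intro v w h
    have h0 := congrFun h 0
    have h1 := congrFun h 1
    have h2 := congrFun h 2
    have h3 := congrFun h 3
    simp at h0 h1 h2 h3
    ext i; fin_cases i <;> assumption

/-- The vector of a coordinate point. -/
def vec (m : ℕ) {F : Type} [Field F] : Option (F × F) → (Fin 4 → F)
  | none => ![1, 0, 0, 0]
  | some (s, t) => ![ht m s t, t, s, 1]

theorem vec_ne (x : Option (F × F)) : vec m x ≠ 0 := by
  rcases x with _ | ⟨s, t⟩
  · intro h
    have := congrFun h 0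
    simp [vec] at this
  · intro h
    have := congrFun h 3
    simp [vec] at this

theorem vec_mem (x : Option (F × F)) :
    Projectivization.mk F (vec m x) (vec_ne x) ∈ ovoid m F := by
  refine ⟨vec m x, vec_ne x, rfl, ?_⟩
  rcases x with _ | ⟨s, t⟩
  · left; rfl
  · right; exact ⟨s, t, rfl⟩

/-- The coordinate bijection. -/
noncomputable def coordEquiv (m : ℕ) (F : Type) [Field F] : Option (F × F) ≃ ovoid m F :=
  Equiv.ofBijective (fun x => ⟨Projectivization.mk F (vec m x) (vec_ne x), vec_mem x⟩) (by
    constructor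
    · intro x y h
      have h' : Projectivization.mk F (vec m x) (vec_ne x) =
        Projectivization.mk F (vec m y) (vec_ne y) := congrArg Subtype.val h
      rw [Projectivization.mk_eq_mk_iff'] at h'
      obtain ⟨a, ha⟩ := h'
      rcases x with _ | ⟨s, t⟩ <;> rcases y with _ | ⟨s', t'⟩
      · rfl
      · have h0 := congrFun ha 0
        have h3 := congrFun ha 3
        simp [vec] at h0 h3
        simp [h3] at h0
      · have h3 := congrFun ha 3
        simp [vec] at h3
      · have h1 := congrFun ha 1
        have h2 := congrFun ha 2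
        have h3 := congrFun ha 3
        simp [vec] at h1 h2 h3
        rw [h3, one_mul] at h1 h2
        rw [h1, h2]
    · rintro ⟨p, v, hv, hp, hv'⟩
      rcases hv' with hv' | ⟨s, t, hv'⟩
      · refine ⟨none, ?_⟩
        apply Subtype.ext
        subst hv'
        exact hp.symm
      · refine ⟨some (s, t), ?_⟩
        apply Subtype.ext
        subst hv'
        exact hp.symm)

theorem coordEquiv_apply (x : Option (F × F)) :
    (coordEquiv m F x : ℙ F (Fin 4 → F)) = Projectivization.mk F (vec m x) (vec_ne x) := rfl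

variable [CharP F 2] [Fintype F] [DecidableEq F] (hF : Fintype.card F = 2 ^ (2 * m + 1))

omit [CharP F 2] [Fintype F] [DecidableEq F] in
/-- A criterion for membership in the set of generators. -/
theorem gen_mem (π : Equiv.Perm (Option (F × F))) (g : (Fin 4 → F) ≃ₗ[F] (Fin 4 → F))
    (hg : IsGen m g) (h : ∀ x, ∃ c : F, c • vec m (π x) = g (vec m x)) :
    (coordEquiv m F).permCongr π ∈ suzuki m F := by
  apply Subgroup.subset_closure
  refine ⟨g, hg, ?_⟩
  intro p
  obtain ⟨x, rfl⟩ := (coordEquiv m F).surjective p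
  rw [Equiv.permCongr_apply, Equiv.symm_apply_apply, coordEquiv_apply, coordEquiv_apply,
    Projectivization.smul_mk]
  symm
  rw [Projectivization.mk_eq_mk_iff']
  obtain ⟨c, hc⟩ := h x
  exact ⟨c, hc⟩

theorem transfer (π : Equiv.Perm (Option (F × F))) (hπ : π ∈ coordGroup hF) :
    (coordEquiv m F).permCongr π ∈ suzuki m F := by
  have h2 : (2 : F) = 0 := CharTwo.two_eq_zero
  unfold coordGroup at hπ
  induction hπ using Subgroup.closure_induction with
  | mem π hπ =>
    rcases hπ with ⟨a, b, rfl⟩ | ⟨k, hk, rfl⟩ | rfl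
    · obtain ⟨g, hg⟩ := exists_u (m := m) a b
      apply gen_mem _ g (Or.inl ⟨a, b, hg⟩)
      intro x
      refine ⟨1, ?_⟩
      rw [one_smul, hg]
      rcases x with _ | ⟨s, t⟩
      · ext i; fin_cases i <;> simp [vec]
      · rw [u_some]
        have hs : tits m (s + a) = tits m s + tits m a := tits_add _ _
        have ht' : tits m (t + b + tits m a * s) = tits m t + tits m b + a ^ 2 * tits m s := by
          rw [tits_add, tits_add, tits_mul, tits_tits hF]
        ext i; fin_cases i
        · simp only [vec, ht, hs, ht']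
          simp
          generalize tits m s = x
          generalize tits m a = y
          linear_combination (y * s ^ 2 + x * s * a + x * a ^ 2 + y * s * a) * h2
        · simp [vec]; ring
        · simp [vec]
        · simp [vec]
    · obtain ⟨g, hg⟩ := exists_k (m := m) k hk
      apply gen_mem _ g (Or.inr (Or.inl ⟨k, hk, hg⟩))
      intro x
      rcases x with _ | ⟨s, t⟩
      · refine ⟨tits m k * k ^ 2, ?_⟩
        rw [hg]
        ext i; fin_cases i <;> simp [vec]
      · refine ⟨1, ?_⟩
        rw [one_smul, hg, k_some]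
        have hs : tits m (k * s) = tits m k * tits m s := tits_mul _ _
        have ht' : tits m (tits m k * k * t) = k ^ 2 * tits m k * tits m t := by
          rw [tits_mul, tits_mul, tits_tits hF]
        ext i; fin_cases i
        · simp only [vec, ht, hs, ht']
          simp
          ring
        · simp [vec]
        · simp [vec]
        · simp [vec]
    · obtain ⟨g, hg⟩ := exists_w (F := F)
      apply gen_mem _ g (Or.inr (Or.inr hg))
      intro x
      rcases x with _ | ⟨s, t⟩
      · refine ⟨1, ?_⟩
        rw [one_smul, hg, w_none]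
        ext i; fin_cases i <;> simp [vec, ht_zero]
      · by_cases h : s = 0 ∧ t = 0
        · obtain ⟨rfl, rfl⟩ := h
          refine ⟨1, ?_⟩
          rw [one_smul, hg, w_zero]
          ext i; fin_cases i <;> simp [vec, ht_zero]
        · have hz := ht_ne hF h
          have hz' := ht_swap hF hz
          refine ⟨ht m s t, ?_⟩
          rw [hg, w_some hF h]
          ext i; fin_cases i
          · simpa [vec] using hz'
          · simp [vec]; field_simp
          · simp [vec]; field_simp
          · simp [vec]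
  | one =>
    have : (coordEquiv m F).permCongr 1 = 1 := by
      ext p
      simp
    rw [this]
    exact Subgroup.one_mem _
  | mul x y _ _ hx hy =>
    have : (coordEquiv m F).permCongr (x * y) =
        (coordEquiv m F).permCongr x * (coordEquiv m F).permCongr y := by
      ext p
      simp
    rw [this]
    exact Subgroup.mul_mem _ hx hy
  | inv x _ hx =>
    have : (coordEquiv m F).permCongr x⁻¹ = ((coordEquiv m F).permCongr x)⁻¹ := by
      rw [eq_inv_iff_mul_eq_one]
      ext p
      simp
    rw [this]
    exact Subgroup.inv_mem _ hx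

end Transfer

/-- **Result.** Let `q = 2^(2m+1)` with `m ≥ 1` and let `F` be a field with `q` elements. The
Suzuki–Tits ovoid has `q² + 1` points, and the Suzuki group `Sz(q)` has the 3-universal
transversal property on them. -/
theorem result (m : ℕ) (hm : 1 ≤ m) (F : Type) [Field F] [Fintype F]
    (hF : Fintype.card F = 2 ^ (2 * m + 1)) :
    Nat.card (ovoid m F) = (2 ^ (2 * m + 1)) ^ 2 + 1 ∧ HasUT (suzuki m F) 3 := by
  classical
  have := charP_two hF
  refine ⟨?_, ?_⟩
  · rw [← Nat.card_congr (coordEquiv m F), Nat.card_eq_fintype_card, Fintype.card_option,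
      Fintype.card_prod, hF]
    ring
  · intro S hS P hP
    obtain ⟨g, hg, h⟩ := coord_ut hF hm (S.map (coordEquiv m F).symm.toEmbedding)
      (by rw [Finset.card_map, hS]) (fun x => P (coordEquiv m F x))
      (hP.comp (coordEquiv m F).surjective)
    refine ⟨(coordEquiv m F).permCongr g, transfer hF g hg, ?_⟩
    intro i
    obtain ⟨x, hx, hxi⟩ := h i
    rw [Finset.mem_map] at hx
    obtain ⟨p, hp, rfl⟩ := hx
    exact ⟨p, hp, hxi⟩

end Pool.Agent.Results.MP_c2cbdb_al.SuzukiThreeUT
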